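import Pool.Agent.MWGX.StmtsA

/-!
# MWGX, row EAT: literal form of the words of KK
-/

set_option autoImplicit false

namespace Pool.Agent.MWGX.H51

open Pool.Agent.Helper14_MV Pool.Agent.Helper2_MV
open Pool.Agent.MWK (pre)
open Pool.Agent.MWF (gaml)
open Pool.Agent.MWGN (nn)
open Pool.Agent.MWGQ (pw Gn E0 A0 P0)
open Pool.Agent.MWGR (X It Kaba F1 Dm Ec Es Ea Al0 Rh FE)

/-- the filter of a word without the letters 0, 2, 3, 4, 5 -/
theorem filt1 : ∀ {L : List ℕ}, 0 ∉ L → 2 ∉ L → 3 ∉ L → 4 ∉ L → 5 ∉ L →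
    L.filter (fun d => decide (d ≤ 5)) = List.replicate (L.count 1) 1
  | [], _, _, _, _, _ => rfl
  | a :: L, h0, h2, h3, h4, h5 => by
    simp only [List.mem_cons, not_or] at h0 h2 h3 h4 h5
    have ih := filt1 h0.2 h2.2 h3.2 h4.2 h5.2
    by_cases h : a ≤ 5
    · have ha : a = 1 := by omega
      subst ha
      rw [List.filter_cons_of_pos (by simp), ih, List.count_cons_self, List.replicate_succ]
    · rw [List.filter_cons_of_neg (by simpa using h), ih, List.count_cons_of_ne (by omega)]

/-- **EAT**. -/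
theorem eat (hSPL : SplStmt) : EatStmt := by
  intro w hK
  have h3w : 3 ∈ w := List.count_pos_iff.1 (by rw [hK.s3]; exact Nat.one_pos)
  have h43 : 4 ∉ pre w 3 := List.count_eq_zero.1 hK.o43
  have h54 : 5 ∉ pre w 4 := List.count_eq_zero.1 hK.o54
  have h34 : 3 ∈ pre w 4 := by
    rcases MWK.pre_total h3w (show 3 ≠ 4 by norm_num) with h | h
    · exact h
    · exact absurd h h43
  have h53 : 5 ∉ pre w 3 := fun h => h54 (MWK.pre_trans h h34)
  obtain ⟨i, j, k, B, hw, h0B, h3B, hs1, hs2⟩ := hSPL w hK.s3 hK.x3 hK.a3 hK.b3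
    (fun d => decide (d ≤ 5)) (by decide) (by decide) (by decide) (by decide)
    (fun d hd h0 h1 h2 => by
      have hd' : d ≤ 5 := by simpa using hd
      have : d = 3 ∨ d = 4 ∨ d = 5 := by omega
      rcases this with rfl | rfl | rfl
      · exact List.count_eq_zero.2 (MWK.not_mem_pre w 3)
      · exact hK.o43
      · exact List.count_eq_zero.2 h53)
  have h4B : B.count 4 = 1 := by
    have h := hK.s4
    rw [hw, List.count_append, List.count_cons_of_ne (by norm_num),
      List.count_eq_zero.2 h43] at h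
    omega
  have h5B : B.count 5 = 1 := by
    have h := hK.s5
    rw [hw, List.count_append, List.count_cons_of_ne (by norm_num),
      List.count_eq_zero.2 h53] at h
    omega
  obtain ⟨B1, B2, rfl⟩ := List.append_of_mem (List.count_pos_iff.1 (by rw [h4B]; exact Nat.one_pos) :
    4 ∈ B)
  rw [List.count_append, List.count_cons_self] at h4B
  have h4B1 : 4 ∉ B1 := List.count_eq_zero.1 (by omega)
  have h4B2 : 4 ∉ B2 := List.count_eq_zero.1 (by omega)
  have hp4 : pre w 4 = pre w 3 ++ 3 :: B1 := by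
    have e : w = (pre w 3 ++ 3 :: B1) ++ 4 :: B2 := by
      conv_lhs => rw [hw]
      simp
    have h : 4 ∉ pre w 3 ++ 3 :: B1 := by
      simp only [List.mem_append, List.mem_cons, not_or]
      exact ⟨h43, by norm_num, h4B1⟩
    conv_lhs => rw [e]
    exact MWK.pre_split h B2
  have h5B1 : 5 ∉ B1 := by
    intro h
    apply h54
    rw [hp4]
    exact List.mem_append_right _ (List.mem_cons_of_mem _ h)
  rw [List.count_append, List.count_cons_of_ne (by norm_num), List.count_eq_zero.2 h5B1,
    Nat.zero_add] at h5B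
  obtain ⟨B3, B4, rfl⟩ := List.append_of_mem (List.count_pos_iff.1 (by rw [h5B]; exact Nat.one_pos) :
    5 ∈ B2)
  rw [List.count_append, List.count_cons_self] at h5B
  have h5B3 : 5 ∉ B3 := List.count_eq_zero.1 (by omega)
  have h5B4 : 5 ∉ B4 := List.count_eq_zero.1 (by omega)
  have hw5 : w = (pre w 3 ++ 3 :: (B1 ++ 4 :: B3)) ++ 5 :: B4 := by
    conv_lhs => rw [hw]
    simp
  have hp5 : pre w 5 = pre w 3 ++ 3 :: (B1 ++ 4 :: B3) := by
    have h : 5 ∉ pre w 3 ++ 3 :: (B1 ++ 4 :: B3) := by
      simp only [List.mem_append, List.mem_cons, not_or]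
      exact ⟨h53, by norm_num, h5B1, by norm_num, h5B3⟩
    conv_lhs => rw [hw5]
    exact MWK.pre_split h B4
  simp only [List.mem_append, List.mem_cons, not_or] at h0B h3B h4B2
  have n14 : nn w 1 4 = nn w 1 3 + B1.count 1 := by
    unfold nn
    rw [hp4, List.count_append, List.count_cons_of_ne (by norm_num)]
  have n24 : nn w 2 4 = nn w 2 3 + B1.count 2 := by
    unfold nn
    rw [hp4, List.count_append, List.count_cons_of_ne (by norm_num)]
  have n15 : nn w 1 5 = nn w 1 4 + B3.count 1 := by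
    rw [n14]
    unfold nn
    rw [hp5, List.count_append, List.count_cons_of_ne (by norm_num), List.count_append,
      List.count_cons_of_ne (by norm_num)]
    omega
  have n25 : nn w 2 5 = nn w 2 4 + B3.count 2 := by
    rw [n24]
    unfold nn
    rw [hp5, List.count_append, List.count_cons_of_ne (by norm_num), List.count_append,
      List.count_cons_of_ne (by norm_num)]
    omega
  have c1 : w.count 1 = nn w 1 5 + B4.count 1 := by
    unfold nn
    conv_lhs => rw [hw5]
    rw [← hp5, List.count_append, List.count_cons_of_ne (by norm_num)]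
  have c2 : w.count 2 = nn w 2 5 + B4.count 2 := by
    unfold nn
    conv_lhs => rw [hw5]
    rw [← hp5, List.count_append, List.count_cons_of_ne (by norm_num)]
  have a3 := hK.a3
  have a40 := hK.a40
  have a41 := hK.a41
  have a5 := hK.a5
  have b2 := hK.b2
  have b3 := hK.b3
  have b4 := hK.b4
  have b5 := hK.b5
  have hf1 : B1.filter (fun d => decide (d ≤ 5)) = List.replicate (B1.count 1) 1 :=
    filt1 h0B.1 (List.count_eq_zero.1 (by omega)) h3B.1 h4B1 h5B1
  have hf4 : B4.filter (fun d => decide (d ≤ 5)) = List.replicate (B4.count 1) 1 :=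
    filt1 h0B.2.2.2.2 (List.count_eq_zero.1 (by omega)) h3B.2.2.2.2 h4B2.2.2 h5B4
  have hfB : (B1 ++ 4 :: (B3 ++ 5 :: B4)).filter (fun d => decide (d ≤ 5)) =
      List.replicate (B1.count 1) 1 ++ 4 :: (B3.filter (fun d => decide (d ≤ 5)) ++
        5 :: List.replicate (B4.count 1) 1) := by
    rw [List.filter_append, hf1, List.filter_cons_of_pos (by decide), List.filter_append,
      List.filter_cons_of_pos (by decide), hf4]
  have hm1 : (1 ∈ B3.filter (fun d => decide (d ≤ 5))) ↔ 1 ∈ B3 := by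
    rw [List.mem_filter]
    exact ⟨fun h => h.1, fun h => ⟨h, by decide⟩⟩
  refine ⟨i, j, k, B1.count 1, B4.count 1, B3.filter (fun d => decide (d ≤ 5)), by omega,
    by omega, ?_, ?_, ?_, ?_, ?_⟩
  · rw [List.mem_filter]
    exact ⟨List.count_pos_iff.1 (by omega), by decide⟩
  · intro d hd
    rw [List.mem_filter] at hd
    have hd5 : d ≤ 5 := by simpa using hd.2
    have e0 : d ≠ 0 := fun e => h0B.2.2.1 (e ▸ hd.1)
    have e3 : d ≠ 3 := fun e => h3B.2.2.1 (e ▸ hd.1)
    have e4 : d ≠ 4 := fun e => h4B2.1 (e ▸ hd.1)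
    have e5 : d ≠ 5 := fun e => h5B3 (e ▸ hd.1)
    omega
  · rw [hm1, ← List.count_eq_zero]
    unfold Ab
    omega
  · intro h
    obtain ⟨q1, q2, q3⟩ := hs1 h
    exact ⟨q1, q2, by rw [q3, hfB]⟩
  · intro h
    obtain ⟨q1, q2, q3⟩ := hs2 h
    exact ⟨q1, q2, by rw [q3, hfB]⟩

end Pool.Agent.MWGX.H51
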